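import Pool.Agent.L7h49.PM.Def4
import Pool.Agent.L7h78.PM.Disc

set_option autoImplicit false

/-! # Project PM, part DISCF: irregularities of distribution (adapted from L7h78/PM/Disc.lean) -/

namespace Pool.Agent.L7h70.PM

open Pool.Agent.L7h49.PM Finset
open Pool.Agent.L7h78.PM (Bt Bt_sub Bt_lin DD DD_nonneg DD_sub DD_sum)

lemma lower (R : ℕ) (g : ℕ → ℕ → ℤ) (h K : ℝ) (hh : 0 ≤ h)
    (h1 : ∀ n j : ℕ, (n : ℝ) * h ≤ 2 ^ R → j ≤ 2 ^ R →
      |(g n j : ℝ) - n * h * ((j : ℝ) / 2 ^ R)| ≤ K)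
    (h2 : ∀ m n i j : ℕ, m ≤ n → (n : ℝ) * h ≤ 2 ^ R → i ≤ j → j ≤ 2 ^ R →
      g n i - g m i ≤ g n j - g m j)
    (r a n : ℕ) (hr : r < R) (han : ((a + n : ℕ) : ℝ) * h ≤ 2 ^ R)
    (hn1 : 2 * (n * h + 4 * K) ≤ 2 ^ r) (hn2 : (2 : ℝ) ^ r ≤ 4 * (n * h)) :
    1 / 512 ≤ DD R r (fun j => ((g (a + n) j : ℝ) - g a j) - n * h * ((j : ℝ) / 2 ^ R)) := by
  classical
  obtain ⟨d, hd⟩ : ∃ d, R = r + 1 + d := ⟨R - (r + 1), by omega⟩
  have hRd : R - (r + 1) = d := by omega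
  have hpd : (0 : ℝ) < 2 ^ d := by positivity
  have hpR : (2 : ℝ) ^ R = 2 ^ r * (2 * 2 ^ d) := by rw [hd, pow_add, pow_add]; ring
  have hpRn : 2 ^ R = 2 ^ r * (2 * 2 ^ d) := by rw [hd, pow_add, pow_add]; ring
  have hpr : (0 : ℝ) < 2 ^ r := by positivity
  have ha0 : (a : ℝ) * h ≤ 2 ^ R := by
    refine le_trans ?_ han
    push_cast
    nlinarith [mul_nonneg (Nat.cast_nonneg (α := ℝ) n) hh]
  set G : ℕ → ℤ := fun s => g (a + n) s - g a s with hG
  have hmono : ∀ s t : ℕ, s ≤ t → t ≤ 2 ^ R → G s ≤ G t := fun s t hst ht =>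
    h2 a (a + n) s t (by omega) han hst ht
  set f : ℕ → ℤ := fun k => G (k * (2 * 2 ^ d)) with hf
  have hinc : ∀ k ∈ range (2 ^ r), 0 ≤ f (k + 1) - f k := by
    intro k hk
    have hk' : k + 1 ≤ 2 ^ r := mem_range.1 hk
    have := hmono (k * (2 * 2 ^ d)) ((k + 1) * (2 * 2 ^ d))
      (Nat.mul_le_mul_right _ (by omega)) (by rw [hpRn]; exact Nat.mul_le_mul_right _ hk')
    simp only [hf]
    linarith
  have htel : ∑ k ∈ range (2 ^ r), (f (k + 1) - f k) = f (2 ^ r) - f 0 := sum_range_sub f _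
  have hcard : (((range (2 ^ r)).filter (fun k => ¬ f (k + 1) = f k)).card : ℤ) ≤
      f (2 ^ r) - f 0 := by
    rw [← htel, card_filter]
    push_cast
    refine sum_le_sum fun k hk => ?_
    have h3 := hinc k hk
    by_cases h4 : f (k + 1) = f k
    · simp only [h4, not_true_eq_false, if_false]
      omega
    · simp only [h4, not_false_eq_true, if_true]
      omega
  have hcard2 := card_filter_add_card_filter_not (s := range (2 ^ r)) (fun k => f (k + 1) = f k)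
  rw [card_range] at hcard2
  have hf1 : (f (2 ^ r) : ℝ) - f 0 ≤ n * h + 4 * K := by
    have e1 : f (2 ^ r) = g (a + n) (2 ^ R) - g a (2 ^ R) := by
      simp only [hf, hG]
      rw [hpRn]
    have e0 : f 0 = g (a + n) 0 - g a 0 := by
      simp only [hf, hG]
      simp
    have b1 := abs_le.1 (h1 (a + n) (2 ^ R) han le_rfl)
    have b2 := abs_le.1 (h1 a (2 ^ R) ha0 le_rfl)
    have b3 := abs_le.1 (h1 (a + n) 0 han (Nat.zero_le _))
    have b4 := abs_le.1 (h1 a 0 ha0 (Nat.zero_le _))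
    have hq : (((2 ^ R : ℕ) : ℝ)) / 2 ^ R = 1 := by
      push_cast
      exact div_self (by positivity)
    rw [hq] at b1 b2
    rw [e1, e0]
    push_cast at b1 b3 ⊢
    simp only [Nat.cast_zero, zero_div, mul_zero] at b3 b4
    linarith [b1.1, b1.2, b2.1, b2.2, b3.1, b3.2, b4.1, b4.2]
  have hZ : (2 : ℝ) ^ r / 2 ≤ (((range (2 ^ r)).filter (fun k => f (k + 1) = f k)).card : ℝ) := by
    have c1 : ((((range (2 ^ r)).filter (fun k => ¬ f (k + 1) = f k)).card : ℤ) : ℝ) ≤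
        ((f (2 ^ r) - f 0 : ℤ) : ℝ) := by exact_mod_cast hcard
    have c2 : ((((range (2 ^ r)).filter (fun k => f (k + 1) = f k)).card +
      ((range (2 ^ r)).filter (fun k => ¬ f (k + 1) = f k)).card : ℕ) : ℝ) = ((2 ^ r : ℕ) : ℝ) := by
      exact_mod_cast hcard2
    push_cast at c1 c2
    linarith
  -- the terms
  have hterm : ∀ k ∈ (range (2 ^ r)).filter (fun k => f (k + 1) = f k),
      (1 / 256 : ℝ) ≤ ((Bt (fun j => ((g (a + n) j : ℝ) -
        g a j) - n * h * ((j : ℝ) / 2 ^ R)) (R - (r + 1)) (2 * k) -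
        Bt (fun j => ((g (a + n) j : ℝ) - g a j) -
        n * h * ((j : ℝ) / 2 ^ R)) (R - (r + 1)) (2 * k + 1)) / 2) ^ 2 := by
    intro k hk
    obtain ⟨hk1, hk2⟩ := mem_filter.1 hk
    have hk1' : k + 1 ≤ 2 ^ r := mem_range.1 hk1
    rw [hRd]
    have hval : ∀ j : ℕ, 2 * k * 2 ^ d ≤ j → j < (2 * k + 2) * 2 ^ d →
        ((g (a + n) j : ℝ) - g a j) - n * h * ((j : ℝ) / 2 ^ R) =
        (f k : ℝ) - (n * h / 2 ^ R) * j := by
      intro j hj1 hj2
      have i1 : k * (2 * 2 ^ d) ≤ j := by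
        calc k * (2 * 2 ^ d) = 2 * k * 2 ^ d := by ring
          _ ≤ j := hj1
      have i2 : j ≤ (k + 1) * (2 * 2 ^ d) := by
        calc j ≤ (2 * k + 2) * 2 ^ d := hj2.le
          _ = (k + 1) * (2 * 2 ^ d) := by ring
      have i3 : (k + 1) * (2 * 2 ^ d) ≤ 2 ^ R := by
        rw [hpRn]; exact Nat.mul_le_mul_right _ hk1'
      have j1 : f k ≤ G j := hmono _ _ i1 (i2.trans i3)
      have j2 : G j ≤ f (k + 1) := hmono _ _ i2 i3
      have j3 : G j = f k := by omega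
      have j4 : ((g (a + n) j : ℝ) - g a j) = (f k : ℝ) := by
        rw [← j3]
        simp only [hG]
        push_cast
        ring
      rw [j4]
      ring
    have l1 := Bt_lin (fun j => ((g (a + n) j : ℝ) - g a j) -
        n * h * ((j : ℝ) / 2 ^ R)) (f k) (n * h / 2 ^ R) d (2 * k)
        (fun j hj1 hj2 => hval j hj1 (lt_of_lt_of_le hj2 (Nat.mul_le_mul_right _ (by omega))))
    have l2 := Bt_lin (fun j => ((g (a + n) j : ℝ) - g a j) -
        n * h * ((j : ℝ) / 2 ^ R)) (f k) (n * h / 2 ^ R) d (2 * k + 1)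
        (fun j hj1 hj2 => hval j (le_trans (Nat.mul_le_mul_right _ (by omega)) hj1) hj2)
    rw [l1, l2]
    have hdiff : ((f k : ℝ) - n * h / 2 ^ R * (((2 * k : ℕ) : ℝ) * 2 ^ d + (2 ^ d - 1) / 2) -
        ((f k : ℝ) - n * h / 2 ^ R * (((2 * k + 1 : ℕ) : ℝ) * 2 ^ d + (2 ^ d - 1) / 2))) / 2 =
        n * h / (4 * 2 ^ r) := by
      rw [hpR]
      push_cast
      field_simp
      ring
    rw [hdiff]
    have h16 : (1 / 16 : ℝ) ≤ n * h / (4 * 2 ^ r) := by
      rw [div_le_div_iff₀ (by norm_num) (by positivity)]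
      linarith
    nlinarith
  have hsum : (1 / 256 : ℝ) * (((range (2 ^ r)).filter (fun k => f (k + 1) = f k)).card : ℝ) ≤
      ∑ k ∈ range (2 ^ r), ((Bt (fun j => ((g (a + n) j : ℝ) -
        g a j) - n * h * ((j : ℝ) / 2 ^ R)) (R - (r + 1)) (2 * k) -
        Bt (fun j => ((g (a + n) j : ℝ) - g a j) -
        n * h * ((j : ℝ) / 2 ^ R)) (R - (r + 1)) (2 * k + 1)) / 2) ^ 2 := by
    refine le_trans ?_ (sum_le_sum_of_subset_of_nonneg
      (filter_subset (fun k => f (k + 1) = f k) (range (2 ^ r))) (fun k _ _ => sq_nonneg _))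
    rw [mul_comm, ← nsmul_eq_mul]
    exact card_nsmul_le_sum _ _ _ hterm
  unfold DD
  rw [one_div_mul_eq_div, le_div_iff₀ hpr]
  linarith

theorem s_DISCF (hD : S_DIA) : S_DISCF := by
  intro R g h K hh h1 h2
  have hh0 : 0 < h := lt_of_lt_of_le one_pos hh
  have hK : 0 ≤ K := le_trans (abs_nonneg _) (h1 0 0 (by simp) (Nat.zero_le _))
  obtain ⟨n0, hn0a, hn0b⟩ := exists_nat_pow_near (x := 4 * (h + 4 * K)) (y := 2)
    (by linarith) (by norm_num)
  set r0 := n0 + 1 with hr0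
  have hr0b : (2 : ℝ) ^ r0 ≤ 8 * (h + 4 * K) := by
    rw [hr0, pow_succ]
    linarith
  have hr0a : 4 * (h + 4 * K) ≤ (2 : ℝ) ^ r0 := hn0b.le
  have hexp3 : (8 : ℝ) ≤ Real.exp 20000 := by
    have := Real.add_one_le_exp (20000 : ℝ)
    linarith
  rcases le_or_gt R r0 with hRr | hRr
  · have c1 : (2 : ℝ) ^ R ≤ 2 ^ r0 := pow_le_pow_right₀ (by norm_num) hRr
    have c2 : Real.exp 20000 ≤ Real.exp (20000 * (K ^ 2 + 1)) := by
      apply Real.exp_le_exp.2
      nlinarith [sq_nonneg K]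
    nlinarith [mul_le_mul_of_nonneg_left (hexp3.trans c2) (by linarith : (0 : ℝ) ≤ 4 * K + h)]
  -- now `r0 < R`
  have hbig : 8 * (h + 4 * K) ≤ (2 : ℝ) ^ R := by
    have c1 : (2 : ℝ) ^ (r0 + 1) ≤ 2 ^ R := pow_le_pow_right₀ (by norm_num) hRr
    rw [pow_succ] at c1
    linarith
  set n : ℕ → ℕ := fun r => ⌈(2 : ℝ) ^ r / (4 * h)⌉₊ with hn
  set N := ⌊(2 : ℝ) ^ R / (2 * h)⌋₊ with hN
  have hNle : (N : ℝ) * (2 * h) ≤ 2 ^ R := by
    have := Nat.floor_le (show (0 : ℝ) ≤ (2 : ℝ) ^ R / (2 * h) by positivity)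
    rwa [← hN, le_div_iff₀ (by positivity)] at this
  have hNgt : (2 : ℝ) ^ R < (N + 1) * (2 * h) := by
    have := Nat.lt_floor_add_one ((2 : ℝ) ^ R / (2 * h))
    rwa [← hN, div_lt_iff₀ (by positivity)] at this
  have hnub : ∀ r < R, (n r : ℝ) * h ≤ 2 ^ R / 8 + h := by
    intro r hr
    have c1 : (n r : ℝ) < (2 : ℝ) ^ r / (4 * h) + 1 := Nat.ceil_lt_add_one (by positivity)
    have c2 : (2 : ℝ) ^ (r + 1) ≤ 2 ^ R := pow_le_pow_right₀ (by norm_num) hr
    rw [pow_succ] at c2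
    have c3 : (n r : ℝ) * h ≤ ((2 : ℝ) ^ r / (4 * h) + 1) * h :=
      mul_le_mul_of_nonneg_right c1.le hh0.le
    have c4 : ((2 : ℝ) ^ r / (4 * h) + 1) * h = 2 ^ r / 4 + h := by
      field_simp
    linarith
  have hnle : ∀ r < R, n r ≤ N := by
    intro r hr
    have c1 := hnub r hr
    have c2 : (n r : ℝ) * h < (N + 1) * h := by nlinarith
    have c3 : (n r : ℝ) < N + 1 := lt_of_mul_lt_mul_right c2 hh0.le
    have c4 : n r < N + 1 := by exact_mod_cast c3
    omega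
  have hNpos : 0 < N := by
    rw [hN]
    apply Nat.floor_pos.2
    rw [le_div_iff₀ (by positivity)]
    linarith
  -- properties of n r
  have hn1 : ∀ r, r0 ≤ r → 2 * ((n r : ℝ) * h + 4 * K) ≤ 2 ^ r := by
    intro r hr
    have c1 : (n r : ℝ) < (2 : ℝ) ^ r / (4 * h) + 1 := Nat.ceil_lt_add_one (by positivity)
    have c2 : (2 : ℝ) ^ r0 ≤ 2 ^ r := pow_le_pow_right₀ (by norm_num) hr
    have c3 : (n r : ℝ) * h ≤ ((2 : ℝ) ^ r / (4 * h) + 1) * h :=
      mul_le_mul_of_nonneg_right c1.le hh0.le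
    have c4 : ((2 : ℝ) ^ r / (4 * h) + 1) * h = 2 ^ r / 4 + h := by
      field_simp
    linarith
  have hn2 : ∀ r, (2 : ℝ) ^ r ≤ 4 * ((n r : ℝ) * h) := by
    intro r
    have c1 : (2 : ℝ) ^ r / (4 * h) ≤ n r := Nat.le_ceil _
    rw [div_le_iff₀ (by positivity)] at c1
    linarith
  set E : ℕ → ℕ → ℝ := fun a j => ((g a j : ℝ) - g 0 j) - a * h * ((j : ℝ) / 2 ^ R) with hE
  have hEb : ∀ a ∈ range (2 * N), ∀ k < 2 ^ R, |E a k| ≤ 2 * K := by
    intro a ha k hk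
    have ha' : (a : ℝ) ≤ 2 * N := by exact_mod_cast (mem_range.1 ha).le
    have hah : (a : ℝ) * h ≤ 2 ^ R := by nlinarith
    have b1 := abs_le.1 (h1 a k hah hk.le)
    have b2 := abs_le.1 (h1 0 k (by simp) hk.le)
    push_cast at b2
    rw [abs_le]
    simp only [hE]
    constructor
    · linarith [b1.1, b1.2, b2.1, b2.2]
    · linarith [b1.1, b1.2, b2.1, b2.2]
  have htot : ∀ a ∈ range (2 * N), ∑ r ∈ range R, DD R r (E a) ≤ (2 * K) ^ 2 := fun a ha =>
    DD_sum hD R (E a) (2 * K) (by positivity) (hEb a ha)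
  -- for one r
  have hone : ∀ r, r0 ≤ r → r < R → (N : ℝ) / 512 ≤ 4 * ∑ a ∈ range (2 * N), DD R r (E a) := by
    intro r hr1 hr2
    have s1 : (N : ℝ) / 512 ≤ ∑ a ∈ range N, (2 * DD R r (E (a + n r)) + 2 * DD R r (E a)) := by
      have : (N : ℝ) / 512 = ∑ a ∈ range N, (1 / 512 : ℝ) := by
        rw [sum_const, card_range, nsmul_eq_mul]
        ring
      rw [this]
      refine sum_le_sum fun a ha => ?_
      have ha' : (a : ℝ) ≤ N := by exact_mod_cast (mem_range.1 ha).le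
      have han : ((a + n r : ℕ) : ℝ) * h ≤ 2 ^ R := by
        have := hnub r hr2
        push_cast
        nlinarith
      refine le_trans (lower R g h K hh0.le h1 h2 r a (n r) hr2 han (hn1 r hr1) (hn2 r)) ?_
      refine le_trans (le_of_eq ?_) (DD_sub R r (E (a + n r)) (E a))
      congr 1
      funext j
      simp only [hE]
      push_cast
      ring
    have s2 : ∑ a ∈ range N, DD R r (E (a + n r)) ≤ ∑ a ∈ range (2 * N), DD R r (E a) := by
      have : ∑ a ∈ range N, DD R r (E (a + n r)) = ∑ a ∈ (range N).image (fun a => a + n r),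
          DD R r (E a) := by
        rw [sum_image]
        intro x _ y _ hxy
        exact Nat.add_right_cancel hxy
      rw [this]
      refine sum_le_sum_of_subset_of_nonneg ?_ (fun a _ _ => DD_nonneg _ _ _)
      intro x hx
      obtain ⟨a, ha, rfl⟩ := mem_image.1 hx
      have := hnle r hr2
      have := mem_range.1 ha
      exact mem_range.2 (by omega)
    have s3 : ∑ a ∈ range N, DD R r (E a) ≤ ∑ a ∈ range (2 * N), DD R r (E a) :=
      sum_le_sum_of_subset_of_nonneg (range_subset_range.2 (by omega))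
        (fun a _ _ => DD_nonneg _ _ _)
    rw [sum_add_distrib, ← mul_sum, ← mul_sum] at s1
    linarith
  obtain ⟨T, hT⟩ : ∃ T, R = r0 + T := ⟨R - r0, by omega⟩
  have hall : (T : ℝ) * ((N : ℝ) / 512) ≤
      4 * ∑ r ∈ range R, ∑ a ∈ range (2 * N), DD R r (E a) := by
    have t1 : (T : ℝ) * ((N : ℝ) / 512) = ∑ r ∈ Ico r0 R, (N : ℝ) / 512 := by
      rw [sum_const, Nat.card_Ico, nsmul_eq_mul]
      congr 2
      omega
    rw [t1, mul_sum]
    refine le_trans (sum_le_sum fun r hr => hone r (mem_Ico.1 hr).1 (mem_Ico.1 hr).2) ?_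
    refine sum_le_sum_of_subset_of_nonneg ?_ (fun r _ _ => ?_)
    · intro r hr
      exact mem_range.2 (mem_Ico.1 hr).2
    · exact mul_nonneg (by norm_num) (sum_nonneg fun a _ => DD_nonneg _ _ _)
  rw [sum_comm] at hall
  have hlast : ∑ a ∈ range (2 * N), ∑ r ∈ range R, DD R r (E a) ≤ (2 * N) * (2 * K) ^ 2 := by
    refine le_trans (sum_le_sum fun a ha => htot a ha) ?_
    rw [sum_const, card_range, nsmul_eq_mul]
    push_cast
    exact le_rfl
  have hNr : (0 : ℝ) < N := by exact_mod_cast hNpos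
  have h4 : (T : ℝ) * ((N : ℝ) / 512) ≤ 4 * ((2 * N) * (2 * K) ^ 2) := by linarith
  have h5 : (T : ℝ) * N ≤ (16384 * K ^ 2) * N := by nlinarith
  have h6 : (T : ℝ) ≤ 16384 * K ^ 2 := le_of_mul_le_mul_right h5 hNr
  -- conclusion
  have h7 : (2 : ℝ) ^ T ≤ Real.exp T := by
    have e2 : (2 : ℝ) ≤ Real.exp 1 := by
      have := Real.add_one_le_exp (1 : ℝ)
      linarith
    calc (2 : ℝ) ^ T ≤ (Real.exp 1) ^ T := pow_le_pow_left₀ (by norm_num) e2 T
      _ = Real.exp T := by rw [← Real.exp_nat_mul, mul_one]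
  have h8 : Real.exp T * 8 ≤ Real.exp (20000 * (K ^ 2 + 1)) := by
    calc Real.exp T * 8 ≤ Real.exp T * Real.exp 20000 :=
          mul_le_mul_of_nonneg_left hexp3 (Real.exp_pos _).le
      _ = Real.exp (T + 20000) := (Real.exp_add _ _).symm
      _ ≤ Real.exp (20000 * (K ^ 2 + 1)) := by
        apply Real.exp_le_exp.2
        nlinarith [sq_nonneg K]
  have h9 : (2 : ℝ) ^ R = 2 ^ r0 * 2 ^ T := by
    conv_lhs => rw [hT]
    exact pow_add _ _ _
  rw [h9]
  calc (2 : ℝ) ^ r0 * 2 ^ T ≤ (8 * (h + 4 * K)) * Real.exp T := by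
        apply mul_le_mul hr0b h7 (by positivity) (by linarith)
    _ = (4 * K + h) * (Real.exp T * 8) := by ring
    _ ≤ (4 * K + h) * Real.exp (20000 * (K ^ 2 + 1)) :=
        mul_le_mul_of_nonneg_left h8 (by linarith)

end Pool.Agent.L7h70.PM
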